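import Mathlib

/-!
# The inequality for one, two and three zeros
-/

set_option autoImplicit false

namespace Pool.Agent.U384.CP

open Complex

/-- the common part: the variance of the reciprocals is large -/
theorem var_large {a γ σ E : ℝ} (ha0 : 0 ≤ a) (ha1 : a ≤ 1) (hγ0 : 0 ≤ γ) (hγ1 : γ < 1 / 2)
    (hσ : 0 ≤ σ) (hσγ : σ ^ 2 = 1 - 4 * γ ^ 2) (h : 1 ≤ (1 - a ^ 2) * E + 2 * a * γ) :
    (1 + σ) / 2 ≤ E := by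
  by_contra hE
  push Not at hE
  have h1 : (1 - a ^ 2) * ((1 + σ) / 2) + 2 * a * γ ≤ 1 := by
    have h2 : 0 < 1 + σ := by linarith
    have h3 : 0 ≤ (1 + σ) * (1 - ((1 - a ^ 2) * ((1 + σ) / 2) + 2 * a * γ)) := by
      nlinarith [sq_nonneg ((1 + σ) * a - 2 * γ)]
    by_contra h4
    push Not at h4
    nlinarith
  rcases ha1.eq_or_lt with h2 | h2
  · rw [h2] at h; linarith
  · have h3 : 0 < 1 - a ^ 2 := by nlinarith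
    nlinarith

theorem one_zero {a : ℝ} (ha0 : 0 ≤ a) (ha1 : a ≤ 1) {x y : ℂ}
    (hx : 1 ≤ (1 - a ^ 2) * ‖x‖ ^ 2 + 2 * a * x.re) (h1 : y = 2 * x) : 1 ≤ ‖y‖ ^ 2 := by
  rw [h1, norm_mul]
  have h2 : ‖(2 : ℂ)‖ = 2 := by simp
  rw [h2]
  have h3 := Complex.re_le_norm x
  have h4 := norm_nonneg x
  have h5 : 1 / 2 ≤ ‖x‖ := by
    by_contra h6
    push Not at h6
    have h7 : 2 * a * x.re ≤ 2 * a * ‖x‖ := by nlinarith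
    have h8 : (1 - a ^ 2) * ‖x‖ ^ 2 ≤ (1 - a ^ 2) * (1 / 4) := by
      refine mul_le_mul_of_nonneg_left ?_ (by nlinarith)
      nlinarith
    nlinarith
  nlinarith

theorem two_zeros {a : ℝ} (ha0 : 0 ≤ a) (ha1 : a ≤ 1) {x₁ x₂ y₁ y₂ : ℂ}
    (hx₁ : 1 ≤ (1 - a ^ 2) * ‖x₁‖ ^ 2 + 2 * a * x₁.re)
    (hx₂ : 1 ≤ (1 - a ^ 2) * ‖x₂‖ ^ 2 + 2 * a * x₂.re)
    (h1 : y₁ + y₂ = 2 * (x₁ + x₂)) (h2 : y₁ * y₂ = 3 * (x₁ * x₂)) :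
    2 ≤ ‖y₁‖ ^ 2 + ‖y₂‖ ^ 2 := by
  by_contra hcon
  push Not at hcon
  obtain ⟨c, hc⟩ : ∃ c : ℂ, c = (x₁ + x₂) / 2 := ⟨_, rfl⟩
  obtain ⟨η, hη⟩ : ∃ η : ℂ, η = (x₁ - x₂) / 2 := ⟨_, rfl⟩
  obtain ⟨δ, hδ⟩ : ∃ δ : ℂ, δ = (y₁ - y₂) / 2 := ⟨_, rfl⟩
  have e1 : x₁ = c + η := by rw [hc, hη]; ring
  have e2 : x₂ = c - η := by rw [hc, hη]; ring
  have e3 : y₁ = 2 * c + δ := by
    rw [hc, hδ]; linear_combination (1 / 2 : ℂ) * h1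
  have e4 : y₂ = 2 * c - δ := by
    rw [hc, hδ]; linear_combination (1 / 2 : ℂ) * h1
  have e5 : δ ^ 2 = c ^ 2 + 3 * η ^ 2 := by
    rw [e1, e2, e3, e4] at h2
    linear_combination -h2
  have par : ∀ u v : ℂ, ‖u + v‖ ^ 2 + ‖u - v‖ ^ 2 = 2 * ‖u‖ ^ 2 + 2 * ‖v‖ ^ 2 := by
    intro u v
    have := parallelogram_law_with_norm ℝ u v
    nlinarith
  have n1 : ‖y₁‖ ^ 2 + ‖y₂‖ ^ 2 = 8 * ‖c‖ ^ 2 + 2 * ‖δ‖ ^ 2 := by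
    rw [e3, e4, par, norm_mul]
    have : ‖(2 : ℂ)‖ = 2 := by simp
    rw [this]; ring
  have n2 : ‖x₁‖ ^ 2 + ‖x₂‖ ^ 2 = 2 * ‖c‖ ^ 2 + 2 * ‖η‖ ^ 2 := by rw [e1, e2, par]
  have hγ0 := norm_nonneg c
  have hγ1 : ‖c‖ < 1 / 2 := by nlinarith [sq_nonneg ‖δ‖]
  have hs : 0 ≤ 1 - 4 * ‖c‖ ^ 2 := by nlinarith
  obtain ⟨σ, hσ0, hσ⟩ : ∃ σ : ℝ, 0 ≤ σ ∧ σ ^ 2 = 1 - 4 * ‖c‖ ^ 2 :=
    ⟨√(1 - 4 * ‖c‖ ^ 2), Real.sqrt_nonneg _, Real.sq_sqrt hs⟩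
  have hre : x₁.re + x₂.re ≤ 2 * ‖c‖ := by
    have : x₁.re + x₂.re = 2 * c.re := by rw [e1, e2]; simp; ring
    rw [this]
    have := Complex.re_le_norm c
    linarith
  have hv := var_large (E := ‖c‖ ^ 2 + ‖η‖ ^ 2) ha0 ha1 hγ0 hγ1 hσ0 hσ (by nlinarith)
  have h3 : 3 * ‖η‖ ^ 2 ≤ ‖δ‖ ^ 2 + ‖c‖ ^ 2 := by
    have h4 : (3 : ℂ) * η ^ 2 = δ ^ 2 - c ^ 2 := by rw [e5]; ring
    have h5 : ‖(3 : ℂ) * η ^ 2‖ = 3 * ‖η‖ ^ 2 := by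
      rw [norm_mul, norm_pow]
      have : ‖(3 : ℂ)‖ = 3 := by simp
      rw [this]
    rw [← h5, h4]
    refine (norm_sub_le _ _).trans ?_
    rw [norm_pow, norm_pow]
  nlinarith

end Pool.Agent.U384.CP
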