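import Mathlib

/-!
# The critical points of `(z - a) ∏ (z - z_j)`
-/

set_option autoImplicit false

namespace Pool.Agent.U384.CP

open Complex Polynomial

/-- the polynomial -/
noncomputable def pol {m : ℕ} (a : ℂ) (z : Fin m → ℂ) : ℂ[X] :=
  (X - C a) * ∏ j, (X - C (z j))

theorem pol_monic {m : ℕ} (a : ℂ) (z : Fin m → ℂ) : (pol a z).Monic :=
  (monic_X_sub_C a).mul (monic_prod_of_monic _ _ fun j _ => monic_X_sub_C (z j))

theorem pol_natDegree {m : ℕ} (a : ℂ) (z : Fin m → ℂ) : (pol a z).natDegree = m + 1 := by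
  unfold pol
  rw [Monic.natDegree_mul (monic_X_sub_C a)
    (monic_prod_of_monic _ _ fun j _ => monic_X_sub_C (z j)), natDegree_X_sub_C,
    natDegree_finsetProd_X_sub_C_eq_card, Finset.card_univ, Fintype.card_fin]
  ring

theorem der_natDegree {m : ℕ} (a : ℂ) (z : Fin m → ℂ) :
    (derivative (pol a z)).natDegree = m := by
  have h := degree_derivative_eq (pol a z) (by rw [pol_natDegree]; omega)
  rw [pol_natDegree] at h
  exact natDegree_eq_of_degree_eq_some (by simpa using h)

theorem der_lead {m : ℕ} (a : ℂ) (z : Fin m → ℂ) :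
    (derivative (pol a z)).leadingCoeff = m + 1 := by
  rw [leadingCoeff, der_natDegree, coeff_derivative]
  have h := (pol_monic a z).coeff_natDegree
  rw [pol_natDegree] at h
  rw [h, one_mul]

theorem der_card {m : ℕ} (a : ℂ) (z : Fin m → ℂ) :
    Multiset.card (derivative (pol a z)).roots = m := by
  rw [← (IsAlgClosed.splits (derivative (pol a z))).natDegree_eq_card_roots, der_natDegree]

theorem der_form {m : ℕ} (a : ℂ) (z : Fin m → ℂ) :
    derivative (pol a z) = C ((m : ℂ) + 1) *
      ((derivative (pol a z)).roots.map (fun w => X - C w)).prod := by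
  have h := (IsAlgClosed.splits (derivative (pol a z))).eq_prod_roots
  rw [der_lead] at h
  exact h

end Pool.Agent.U384.CP
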