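import Pool.Agent.U384.CP.Sums

/-!
# Real polynomials with zeros in a double sector
-/

set_option autoImplicit false

namespace Pool.Agent.U384.CP

open Complex Polynomial
open scoped ComplexConjugate

/-- the inequality for the real parts -/
theorem real_ineq {m : ℕ} (hm : 2 ≤ m) (ξ q : Fin m → ℝ)
    (hq : ∀ j, 4 / 5 * ξ j ^ 2 ≤ q j)
    (h : ∀ j, 1 / 2 ≤ ξ j ∨ (ξ j < 0 ∧ 5 / 6 ≤ ξ j ^ 2)) :
    (m : ℝ) ≤ (∑ j, ξ j) ^ 2 + 3 * ∑ j, q j := by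
  have hm2 : (2 : ℝ) ≤ m := by exact_mod_cast hm
  by_cases hneg : ∃ i, ξ i < 0
  · obtain ⟨i, hi⟩ := hneg
    have h1 : ∀ j, 0 ≤ 3 * q j + 4 / 5 * ξ j - 1 := by
      intro j
      have := hq j
      rcases h j with h2 | ⟨h2, h3⟩
      · nlinarith
      · have h4 : ξ j ≤ -(9 / 10) := by nlinarith
        nlinarith
    have h2 : 4 / 25 ≤ 3 * q i + 4 / 5 * ξ i - 1 := by
      have := hq i
      rcases h i with h2 | ⟨h2, h3⟩
      · linarith
      · have h4 : ξ i ≤ -(9 / 10) := by nlinarith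
        nlinarith
    have h3 : 4 / 25 ≤ ∑ j, (3 * q j + 4 / 5 * ξ j - 1) :=
      h2.trans (Finset.single_le_sum (f := fun j => 3 * q j + 4 / 5 * ξ j - 1)
        (fun j _ => h1 j) (Finset.mem_univ i))
    rw [Finset.sum_sub_distrib, Finset.sum_add_distrib, ← Finset.mul_sum, ← Finset.mul_sum,
      Finset.sum_const, Finset.card_univ, Fintype.card_fin, nsmul_eq_mul, mul_one] at h3
    nlinarith [sq_nonneg (∑ j, ξ j - 2 / 5)]
  · push Not at hneg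
    have h1 : ∀ j, 1 / 2 ≤ ξ j := by
      intro j
      rcases h j with h2 | ⟨h2, -⟩
      · exact h2
      · exact absurd h2 (not_lt.2 (hneg j))
    have h2 : (m : ℝ) * (1 / 2) ≤ ∑ j, ξ j := by
      have := Finset.sum_le_sum (fun j (_ : j ∈ Finset.univ) => h1 j)
      rw [Finset.sum_const, Finset.card_univ, Fintype.card_fin, nsmul_eq_mul] at this
      exact this
    have h3 : (m : ℝ) * (1 / 5) ≤ ∑ j, q j := by
      have h4 : ∀ j ∈ (Finset.univ : Finset (Fin m)), (1 / 5 : ℝ) ≤ q j := by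
        intro j _
        have := hq j
        have := h1 j
        nlinarith
      have := Finset.sum_le_sum h4
      rw [Finset.sum_const, Finset.card_univ, Fintype.card_fin, nsmul_eq_mul] at this
      exact this
    have h4 : ((m : ℝ) * (1 / 2)) ^ 2 ≤ (∑ j, ξ j) ^ 2 :=
      pow_le_pow_left₀ (by positivity) h2 2
    nlinarith

/-- the real part of `1 / (a - z)` -/
theorem sector {a : ℝ} (ha0 : 0 ≤ a) (ha1 : a ≤ 1) {z : ℂ} (hz : ‖z‖ ≤ 1)
    (h : (a : ℂ) - z ≠ 0) (hs : 5 * z.im ^ 2 ≤ (a - z.re) ^ 2) :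
    4 / 5 * (((a : ℂ) - z)⁻¹).re ^ 2 ≤ ((((a : ℂ) - z)⁻¹) ^ 2).re ∧
    (1 / 2 ≤ (((a : ℂ) - z)⁻¹).re ∨ ((((a : ℂ) - z)⁻¹).re < 0 ∧
      5 / 6 ≤ (((a : ℂ) - z)⁻¹).re ^ 2)) := by
  have hd := disc hz h
  obtain ⟨x, hx⟩ : ∃ x : ℂ, x = ((a : ℂ) - z)⁻¹ := ⟨_, rfl⟩
  have hx0 : x ≠ 0 := by rw [hx]; exact inv_ne_zero h
  have hu : (a : ℂ) - z = x⁻¹ := by rw [hx, inv_inv]
  rw [← hx] at hd ⊢
  have e1 : a - z.re = x.re / normSq x := by
    have := congrArg Complex.re hu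
    simpa [Complex.inv_re] using this
  have e2 : z.im = x.im / normSq x := by
    have := congrArg Complex.im hu
    simp [Complex.inv_im] at this
    rw [neg_div] at this
    linarith
  have hn : 0 < normSq x := Complex.normSq_pos.2 hx0
  have h1 : 5 * x.im ^ 2 ≤ x.re ^ 2 := by
    rw [e1, e2, div_pow, div_pow, ← mul_div_assoc, div_le_div_iff_of_pos_right (by positivity)]
      at hs
    exact hs
  have h2 : (x ^ 2).re = x.re ^ 2 - x.im ^ 2 := by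
    rw [pow_two, Complex.mul_re]; ring
  have h3 : ‖x‖ ^ 2 = x.re ^ 2 + x.im ^ 2 := by
    rw [Complex.sq_norm, Complex.normSq_apply]; ring
  rw [h2]
  rw [h3] at hd
  refine ⟨by linarith, ?_⟩
  obtain ⟨ξ, hξ⟩ : ∃ ξ : ℝ, ξ = x.re := ⟨_, rfl⟩
  obtain ⟨ζ, hζ⟩ : ∃ ζ : ℝ, ζ = x.im := ⟨_, rfl⟩
  rw [← hξ, ← hζ] at hd h1
  rw [← hξ]
  have ha2 : 0 ≤ 1 - a ^ 2 := by nlinarith
  have h4 : (1 - a ^ 2) * (ξ ^ 2 + ζ ^ 2) ≤ (1 - a ^ 2) * (6 / 5 * ξ ^ 2) :=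
    mul_le_mul_of_nonneg_left (by linarith) ha2
  have h5 : 1 ≤ (1 - a ^ 2) * (6 / 5 * ξ ^ 2) + 2 * a * ξ := by linarith
  rcases lt_or_ge ξ 0 with h6 | h6
  · right
    refine ⟨h6, ?_⟩
    have h7 : 2 * a * ξ ≤ 0 := by nlinarith
    have h8 : (1 - a ^ 2) * (6 / 5 * ξ ^ 2) ≤ 1 * (6 / 5 * ξ ^ 2) :=
      mul_le_mul_of_nonneg_right (by nlinarith) (by positivity)
    linarith
  · left
    by_contra h7
    push Not at h7
    have h8 : ξ ^ 2 ≤ 1 / 2 * ξ := by nlinarith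
    have h9 : (1 - a ^ 2) * (6 / 5 * ξ ^ 2) ≤ (1 - a ^ 2) * (6 / 5 * (1 / 2 * ξ)) :=
      mul_le_mul_of_nonneg_left (by linarith) ha2
    have h10 : 1 ≤ (3 / 5 * (1 - a ^ 2) + 2 * a) * ξ := by nlinarith
    have h11 : 3 / 5 * (1 - a ^ 2) + 2 * a ≤ 2 := by nlinarith
    nlinarith

/-- the inequality for real polynomials with zeros in the double sector -/
theorem real_case {m : ℕ} (hm : 1 ≤ m) (a : ℝ) (ha0 : 0 ≤ a) (ha1 : a ≤ 1) (z : Fin m → ℂ)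
    (hz : ∀ j, ‖z j‖ ≤ 1) (σ : Equiv.Perm (Fin m)) (hσ : ∀ j, z (σ j) = conj (z j))
    (hs : ∀ j, 5 * (z j).im ^ 2 ≤ (a - (z j).re) ^ 2)
    (h : (a : ℂ) ∉ (derivative (pol (a : ℂ) z)).roots) :
    (m : ℝ) ≤ ((derivative (pol (a : ℂ) z)).roots.map
      (fun w : ℂ => (‖w - (a : ℂ)‖ ^ 2)⁻¹)).sum := by
  rcases hm.eq_or_lt with h1 | h1
  · subst h1
    have := small_one a ha0 ha1 z hz h
    push_cast
    exact this
  · have hne := (sum_sq_form (a : ℂ) z h).1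
    refine le_trans ?_ (lower (a : ℂ) z h)
    refine le_trans ?_ (Complex.re_le_norm _)
    have hS : (∑ j, ((a : ℂ) - z j)⁻¹).im = 0 := by
      rw [← Complex.conj_eq_iff_im, map_sum]
      have h2 : ∀ j, conj (((a : ℂ) - z j)⁻¹) = ((a : ℂ) - z (σ j))⁻¹ := by
        intro j
        rw [map_inv₀, map_sub, Complex.conj_ofReal, hσ]
      rw [Finset.sum_congr rfl (fun j _ => h2 j)]
      exact Equiv.sum_comp σ (fun j => ((a : ℂ) - z j)⁻¹)
    have h2 := real_ineq (m := m) (by omega) (fun j => (((a : ℂ) - z j)⁻¹).re)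
      (fun j => ((((a : ℂ) - z j)⁻¹) ^ 2).re)
      (fun j => (sector ha0 ha1 (hz j) (hne j) (hs j)).1)
      (fun j => (sector ha0 ha1 (hz j) (hne j) (hs j)).2)
    refine h2.trans (le_of_eq ?_)
    rw [Complex.add_re, pow_two (∑ j, ((a : ℂ) - z j)⁻¹), Complex.mul_re, hS, mul_zero, sub_zero,
      ← pow_two, Complex.re_sum]
    congr 1
    rw [Complex.mul_re]
    simp [Complex.re_sum]

end Pool.Agent.U384.CP
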