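import Pool.Agent.U384.CP.Ineq

/-!
# The inequality for three zeros
-/

set_option autoImplicit false

namespace Pool.Agent.U384.CP

open Complex

/-- `Σ |c + η_j|² = 3 |c|² + Σ |η_j|²` for `Σ η_j = 0` -/
theorem sum_sq (c u v w : ℂ) (h : u + v + w = 0) :
    ‖c + u‖ ^ 2 + ‖c + v‖ ^ 2 + ‖c + w‖ ^ 2 = 3 * ‖c‖ ^ 2 + (‖u‖ ^ 2 + ‖v‖ ^ 2 + ‖w‖ ^ 2) := by
  simp only [Complex.sq_norm, Complex.normSq_apply, Complex.add_re, Complex.add_im]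
  have h1 : u.re + v.re + w.re = 0 := by
    have := congrArg Complex.re h
    simpa using this
  have h2 : u.im + v.im + w.im = 0 := by
    have := congrArg Complex.im h
    simpa using this
  have h3 : w.re = -u.re - v.re := by linarith
  have h4 : w.im = -u.im - v.im := by linarith
  rw [h3, h4]
  ring

/-- arithmetic and geometric mean -/
theorem amgm {a b c s : ℝ} (ha : 0 ≤ a) (hb : 0 ≤ b) (hc : 0 ≤ c) (hs : 0 ≤ s)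
    (h : a ^ 2 + b ^ 2 + c ^ 2 ≤ 3 * s ^ 2) : a * b * c ≤ s ^ 3 := by
  have h1 : (a + b + c) ^ 2 ≤ (3 * s) ^ 2 := by
    nlinarith [sq_nonneg (a - b), sq_nonneg (b - c), sq_nonneg (a - c)]
  have h2 : a + b + c ≤ 3 * s := by
    have := abs_le_of_sq_le_sq' h1 (by linarith)
    exact this.2
  have h3 : 27 * (a * b * c) ≤ (a + b + c) ^ 3 := by
    nlinarith [mul_nonneg ha (sq_nonneg (b - c)), mul_nonneg hb (sq_nonneg (a - c)),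
      mul_nonneg hc (sq_nonneg (a - b)), mul_nonneg ha (sq_nonneg (a - b)),
      mul_nonneg ha (sq_nonneg (a - c)), mul_nonneg hb (sq_nonneg (a - b)),
      mul_nonneg hb (sq_nonneg (b - c)), mul_nonneg hc (sq_nonneg (a - c)),
      mul_nonneg hc (sq_nonneg (b - c)), mul_nonneg ha hb, mul_nonneg hb hc, mul_nonneg ha hc]
  have h4 : (a + b + c) ^ 3 ≤ (3 * s) ^ 3 := pow_le_pow_left₀ (by linarith) h2 3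
  nlinarith

theorem three_zeros {a : ℝ} (ha0 : 0 ≤ a) (ha1 : a ≤ 1) {x₁ x₂ x₃ y₁ y₂ y₃ : ℂ}
    (hx₁ : 1 ≤ (1 - a ^ 2) * ‖x₁‖ ^ 2 + 2 * a * x₁.re)
    (hx₂ : 1 ≤ (1 - a ^ 2) * ‖x₂‖ ^ 2 + 2 * a * x₂.re)
    (hx₃ : 1 ≤ (1 - a ^ 2) * ‖x₃‖ ^ 2 + 2 * a * x₃.re)
    (h1 : y₁ + y₂ + y₃ = 2 * (x₁ + x₂ + x₃))
    (h2 : y₁ * y₂ + y₁ * y₃ + y₂ * y₃ = 3 * (x₁ * x₂ + x₁ * x₃ + x₂ * x₃))
    (h3 : y₁ * y₂ * y₃ = 4 * (x₁ * x₂ * x₃)) :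
    3 ≤ ‖y₁‖ ^ 2 + ‖y₂‖ ^ 2 + ‖y₃‖ ^ 2 := by
  by_contra hcon
  push Not at hcon
  obtain ⟨c, hc⟩ : ∃ c : ℂ, c = (x₁ + x₂ + x₃) / 3 := ⟨_, rfl⟩
  obtain ⟨η₁, hη₁⟩ : ∃ η : ℂ, η = x₁ - c := ⟨_, rfl⟩
  obtain ⟨η₂, hη₂⟩ : ∃ η : ℂ, η = x₂ - c := ⟨_, rfl⟩
  obtain ⟨η₃, hη₃⟩ : ∃ η : ℂ, η = x₃ - c := ⟨_, rfl⟩
  obtain ⟨δ₁, hδ₁⟩ : ∃ δ : ℂ, δ = y₁ - 2 * c := ⟨_, rfl⟩
  obtain ⟨δ₂, hδ₂⟩ : ∃ δ : ℂ, δ = y₂ - 2 * c := ⟨_, rfl⟩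
  obtain ⟨δ₃, hδ₃⟩ : ∃ δ : ℂ, δ = y₃ - 2 * c := ⟨_, rfl⟩
  have hη : η₁ + η₂ + η₃ = 0 := by rw [hη₁, hη₂, hη₃, hc]; ring
  have hδ : δ₁ + δ₂ + δ₃ = 0 := by
    rw [hδ₁, hδ₂, hδ₃, hc]; linear_combination h1
  have e1 : x₁ = c + η₁ := by rw [hη₁]; ring
  have e2 : x₂ = c + η₂ := by rw [hη₂]; ring
  have e3 : x₃ = c + η₃ := by rw [hη₃]; ring
  have f1 : y₁ = 2 * c + δ₁ := by rw [hδ₁]; ring
  have f2 : y₂ = 2 * c + δ₂ := by rw [hδ₂]; ring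
  have f3 : y₃ = 2 * c + δ₃ := by rw [hδ₃]; ring
  clear hη₁ hη₂ hη₃ hδ₁ hδ₂ hδ₃ hc
  obtain ⟨p, hp⟩ : ∃ p : ℂ, p = η₁ * η₂ + η₁ * η₃ + η₂ * η₃ := ⟨_, rfl⟩
  obtain ⟨t, ht⟩ : ∃ t : ℂ, t = η₁ * η₂ * η₃ := ⟨_, rfl⟩
  -- the elementary symmetric functions of the `δ`
  have g2 : δ₁ * δ₂ + δ₁ * δ₃ + δ₂ * δ₃ = 3 * (p - c ^ 2) := by
    have hδ3 : δ₃ = -δ₁ - δ₂ := by linear_combination hδ
    have hη3 : η₃ = -η₁ - η₂ := by linear_combination hη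
    rw [e1, e2, e3, f1, f2, f3] at h2
    rw [hp]
    rw [hδ3, hη3] at h2 ⊢
    linear_combination h2
  have g3 : δ₁ * δ₂ * δ₃ = 2 * c ^ 3 - 2 * c * p + 4 * t := by
    have hδ3 : δ₃ = -δ₁ - δ₂ := by linear_combination hδ
    have hη3 : η₃ = -η₁ - η₂ := by linear_combination hη
    rw [e1, e2, e3, f1, f2, f3] at h3
    rw [ht]
    have g2' := g2
    rw [hp] at g2' ⊢
    rw [hδ3, hη3] at h3 g2' ⊢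
    linear_combination h3 - 2 * c * g2'
  -- norms
  obtain ⟨D, hD⟩ : ∃ D : ℝ, D = ‖δ₁‖ ^ 2 + ‖δ₂‖ ^ 2 + ‖δ₃‖ ^ 2 := ⟨_, rfl⟩
  have n1 : ‖y₁‖ ^ 2 + ‖y₂‖ ^ 2 + ‖y₃‖ ^ 2 = 12 * ‖c‖ ^ 2 + D := by
    rw [f1, f2, f3, sum_sq _ _ _ _ hδ, norm_mul, hD]
    have : ‖(2 : ℂ)‖ = 2 := by simp
    rw [this]; ring
  have n2 : ‖x₁‖ ^ 2 + ‖x₂‖ ^ 2 + ‖x₃‖ ^ 2 =
      3 * ‖c‖ ^ 2 + (‖η₁‖ ^ 2 + ‖η₂‖ ^ 2 + ‖η₃‖ ^ 2) := by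
    rw [e1, e2, e3, sum_sq _ _ _ _ hη]
  have hD0 : 0 ≤ D := by rw [hD]; positivity
  have hγ0 := norm_nonneg c
  have hγ1 : ‖c‖ < 1 / 2 := by nlinarith
  have hs : 0 < 1 - 4 * ‖c‖ ^ 2 := by nlinarith
  obtain ⟨σ, hσ0, hσ⟩ : ∃ σ : ℝ, 0 < σ ∧ σ ^ 2 = 1 - 4 * ‖c‖ ^ 2 :=
    ⟨√(1 - 4 * ‖c‖ ^ 2), Real.sqrt_pos.2 hs, Real.sq_sqrt hs.le⟩
  have hσ1 : σ ≤ 1 := by nlinarith [sq_nonneg ‖c‖]
  have hDσ : D < 3 * σ ^ 2 := by rw [hσ]; linarith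
  have hre : x₁.re + x₂.re + x₃.re ≤ 3 * ‖c‖ := by
    have h4 : x₁.re + x₂.re + x₃.re = 3 * c.re + (η₁ + η₂ + η₃).re := by
      rw [e1, e2, e3]; simp; ring
    rw [h4, hη]
    have := Complex.re_le_norm c
    simp
    linarith
  have hv := var_large (E := ‖c‖ ^ 2 + (‖η₁‖ ^ 2 + ‖η₂‖ ^ 2 + ‖η₃‖ ^ 2) / 3)
    ha0 ha1 hγ0 hγ1 hσ0.le hσ (by nlinarith)
  -- the bounds for the coefficients
  have b1 : 3 * ‖p - c ^ 2‖ ≤ D / 2 := by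
    have h4 : δ₁ ^ 2 + δ₂ ^ 2 + δ₃ ^ 2 = -(2 : ℂ) * (3 * (p - c ^ 2)) := by
      rw [← g2]; linear_combination (δ₁ + δ₂ + δ₃) * hδ
    have h5 : ‖δ₁ ^ 2 + δ₂ ^ 2 + δ₃ ^ 2‖ = 6 * ‖p - c ^ 2‖ := by
      rw [h4, norm_mul, norm_mul, norm_neg]
      have : ‖(2 : ℂ)‖ = 2 := by simp
      have h3' : ‖(3 : ℂ)‖ = 3 := by simp
      rw [this, h3']; ring
    have h6 : ‖δ₁ ^ 2 + δ₂ ^ 2 + δ₃ ^ 2‖ ≤ D := by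
      rw [hD, ← norm_pow, ← norm_pow, ← norm_pow]
      exact norm_add₃_le
    linarith
  have b2 : ‖δ₁ * δ₂ * δ₃‖ ≤ σ ^ 3 := by
    rw [norm_mul, norm_mul]
    exact amgm (norm_nonneg _) (norm_nonneg _) (norm_nonneg _) hσ0.le (by linarith)
  have b3 : 4 * ‖t‖ ≤ σ ^ 3 + ‖c‖ * σ ^ 2 := by
    have h4 : (4 : ℂ) * t = δ₁ * δ₂ * δ₃ + 2 * c * (p - c ^ 2) := by rw [g3]; ring
    have h5 : ‖(4 : ℂ) * t‖ = 4 * ‖t‖ := by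
      rw [norm_mul]
      have : ‖(4 : ℂ)‖ = 4 := by simp
      rw [this]
    rw [← h5, h4]
    refine (norm_add_le _ _).trans ?_
    rw [norm_mul (2 * c), norm_mul (2 : ℂ)]
    have : ‖(2 : ℂ)‖ = 2 := by simp
    rw [this]
    have h6 : ‖p - c ^ 2‖ ≤ σ ^ 2 / 2 := by linarith
    have h7 : 2 * ‖c‖ * ‖p - c ^ 2‖ ≤ 2 * ‖c‖ * (σ ^ 2 / 2) :=
      mul_le_mul_of_nonneg_left h6 (by linarith)
    linarith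
  have b4 : ‖p‖ ≤ (1 + σ ^ 2) / 4 := by
    have h4 : p = (p - c ^ 2) + c ^ 2 := by ring
    have h5 : ‖p‖ ≤ ‖p - c ^ 2‖ + ‖c ^ 2‖ := by
      conv_lhs => rw [h4]
      exact norm_add_le _ _
    rw [norm_pow] at h5
    have h6 : ‖p - c ^ 2‖ ≤ σ ^ 2 / 2 := by linarith
    nlinarith
  -- one of the `η` is large
  have key : ∀ η : ℂ, η ^ 3 + p * η - t = 0 → ‖η‖ < (1 + σ) / 2 := by
    intro η h4
    by_contra h5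
    push Not at h5
    have h6 : ‖η‖ ^ 3 ≤ ‖p‖ * ‖η‖ + ‖t‖ := by
      have h7 : η ^ 3 = -(p * η) + t := by linear_combination h4
      rw [← norm_pow, h7, ← norm_mul]
      refine (norm_add_le _ _).trans ?_
      rw [norm_neg]
    have hr0 := norm_nonneg η
    have h7 : σ / 2 ≤ ‖η‖ ^ 2 - ‖p‖ := by
      have h71 : ((1 + σ) / 2) ^ 2 ≤ ‖η‖ ^ 2 := pow_le_pow_left₀ (by positivity) h5 2
      have h72 : ((1 + σ) / 2) ^ 2 = (1 + σ ^ 2) / 4 + σ / 2 := by ring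
      linarith
    have h8 : (1 + σ) / 2 * (σ / 2) ≤ ‖η‖ * (‖η‖ ^ 2 - ‖p‖) :=
      mul_le_mul h5 h7 (by positivity) hr0
    have h9 : ‖η‖ * (‖η‖ ^ 2 - ‖p‖) ≤ ‖t‖ := by
      have h91 : ‖η‖ * (‖η‖ ^ 2 - ‖p‖) = ‖η‖ ^ 3 - ‖p‖ * ‖η‖ := by ring
      rw [h91]; linarith
    have h10 : σ * (1 + σ) ≤ σ ^ 3 + ‖c‖ * σ ^ 2 := by
      have h101 : (1 + σ) / 2 * (σ / 2) = σ * (1 + σ) / 4 := by ring
      rw [h101] at h8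
      linarith
    have h11 : σ ^ 3 + ‖c‖ * σ ^ 2 < σ * (1 + σ) := by
      have h12 : σ ^ 2 ≤ σ := by
        have := mul_le_mul_of_nonneg_left hσ1 hσ0.le
        rw [mul_one] at this
        rw [pow_two]; exact this
      have h13 : ‖c‖ * σ ≤ 1 / 2 * 1 := mul_le_mul hγ1.le hσ1 hσ0.le (by norm_num)
      have h14 : σ ^ 2 + ‖c‖ * σ < 1 + σ := by linarith
      have h15 := mul_lt_mul_of_pos_left h14 hσ0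
      have h16 : σ * (σ ^ 2 + ‖c‖ * σ) = σ ^ 3 + ‖c‖ * σ ^ 2 := by ring
      linarith
    linarith
  have k1 := key η₁ (by rw [hp, ht]; linear_combination (η₁ ^ 2) * hη)
  have k2 := key η₂ (by rw [hp, ht]; linear_combination (η₂ ^ 2) * hη)
  have k3 := key η₃ (by rw [hp, ht]; linear_combination (η₃ ^ 2) * hη)
  have m1 : ‖η₁‖ ^ 2 < ((1 + σ) / 2) ^ 2 := pow_lt_pow_left₀ k1 (norm_nonneg _) (by norm_num)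
  have m2 : ‖η₂‖ ^ 2 < ((1 + σ) / 2) ^ 2 := pow_lt_pow_left₀ k2 (norm_nonneg _) (by norm_num)
  have m3 : ‖η₃‖ ^ 2 < ((1 + σ) / 2) ^ 2 := pow_lt_pow_left₀ k3 (norm_nonneg _) (by norm_num)
  have m4 : ((1 + σ) / 2) ^ 2 = (1 + 2 * σ + σ ^ 2) / 4 := by ring
  rw [m4] at m1 m2 m3
  linarith

end Pool.Agent.U384.CP
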