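import Pool.Agent.U384.CP.Poly
import Pool.Agent.U384.CP.Three

/-!
# Degree at most four
-/

set_option autoImplicit false

namespace Pool.Agent.U384.CP

open Complex Polynomial

/-- the condition for the reciprocal of `a - z` -/
theorem disc {a : ℝ} {z : ℂ} (hz : ‖z‖ ≤ 1) (h : (a : ℂ) - z ≠ 0) :
    1 ≤ (1 - a ^ 2) * ‖((a : ℂ) - z)⁻¹‖ ^ 2 + 2 * a * (((a : ℂ) - z)⁻¹).re := by
  obtain ⟨x, hx⟩ : ∃ x : ℂ, x = ((a : ℂ) - z)⁻¹ := ⟨_, rfl⟩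
  rw [← hx]
  have hx0 : x ≠ 0 := by rw [hx]; exact inv_ne_zero h
  have h1 : z * x = a * x - 1 := by
    have : ((a : ℂ) - z) * x = 1 := by rw [hx]; exact mul_inv_cancel₀ h
    linear_combination -this
  have h2 : ‖a * x - 1‖ ≤ ‖x‖ := by
    rw [← h1, norm_mul]
    exact mul_le_of_le_one_left (norm_nonneg _) hz
  have h3 : ‖a * x - 1‖ ^ 2 ≤ ‖x‖ ^ 2 := pow_le_pow_left₀ (norm_nonneg _) h2 2
  simp only [Complex.sq_norm, Complex.normSq_apply, Complex.sub_re, Complex.sub_im,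
    Complex.mul_re, Complex.mul_im, Complex.ofReal_re, Complex.ofReal_im, Complex.one_re,
    Complex.one_im] at h3 ⊢
  nlinarith

theorem inv_norm (w a : ℂ) : (‖w - a‖ ^ 2)⁻¹ = ‖(a - w)⁻¹‖ ^ 2 := by
  rw [norm_inv, inv_pow, norm_sub_rev]

theorem eval_form {m : ℕ} (a : ℂ) (z : Fin m → ℂ) (x : ℂ) :
    eval x (derivative (pol a z)) = ((m : ℂ) + 1) *
      ((derivative (pol a z)).roots.map (fun w => x - w)).prod := by
  rw [(IsAlgClosed.splits (derivative (pol a z))).eval_eq_prod_roots, der_lead]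

theorem not_root {m : ℕ} {a : ℂ} {z : Fin m → ℂ}
    (h : a ∉ (derivative (pol a z)).roots) {w : ℂ} (hw : w ∈ (derivative (pol a z)).roots) :
    a - w ≠ 0 := by
  intro h1
  exact h (Eq.subst (motive := fun t => t ∈ (derivative (pol a z)).roots)
    (sub_eq_zero.1 h1).symm hw)

theorem small_one (a : ℝ) (ha0 : 0 ≤ a) (ha1 : a ≤ 1) (z : Fin 1 → ℂ) (hz : ∀ j, ‖z j‖ ≤ 1)
    (h : (a : ℂ) ∉ (derivative (pol (a : ℂ) z)).roots) :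
    (1 : ℝ) ≤ ((derivative (pol (a : ℂ) z)).roots.map
      (fun w : ℂ => (‖w - (a : ℂ)‖ ^ 2)⁻¹)).sum := by
  obtain ⟨w, hw⟩ := Multiset.card_eq_one.1 (der_card (a : ℂ) z)
  have hv := not_root h (w := w) (by rw [hw]; simp)
  have he := eval_form (a : ℂ) z
  rw [hw] at he ⊢
  simp only [Multiset.map_singleton, Multiset.sum_singleton, Multiset.prod_singleton,
    inv_norm] at he ⊢
  obtain ⟨u, hu⟩ : ∃ u : ℂ, u = a - z 0 := ⟨_, rfl⟩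
  have k0 := he a
  simp [pol] at k0
  have k1 : u = 2 * ((a : ℂ) - w) := by rw [hu]; linear_combination k0
  have hu0 : u ≠ 0 := by rw [k1]; exact mul_ne_zero two_ne_zero hv
  have hx := disc (hz 0) (by rw [← hu]; exact hu0)
  rw [← hu] at hx
  refine one_zero ha0 ha1 hx ?_
  rw [k1]
  field_simp

theorem small_two (a : ℝ) (ha0 : 0 ≤ a) (ha1 : a ≤ 1) (z : Fin 2 → ℂ) (hz : ∀ j, ‖z j‖ ≤ 1)
    (h : (a : ℂ) ∉ (derivative (pol (a : ℂ) z)).roots) :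
    (2 : ℝ) ≤ ((derivative (pol (a : ℂ) z)).roots.map
      (fun w : ℂ => (‖w - (a : ℂ)‖ ^ 2)⁻¹)).sum := by
  obtain ⟨w₁, w₂, hw⟩ := Multiset.card_eq_two.1 (der_card (a : ℂ) z)
  have hv₁ := not_root h (w := w₁) (by rw [hw]; simp)
  have hv₂ := not_root h (w := w₂) (by rw [hw]; simp)
  have he := eval_form (a : ℂ) z
  rw [hw] at he ⊢
  simp only [Multiset.insert_eq_cons, Multiset.map_cons, Multiset.map_singleton,
    Multiset.sum_cons, Multiset.sum_singleton, Multiset.prod_cons, Multiset.prod_singleton,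
    inv_norm] at he ⊢
  have k0 := he a
  have k1 := he (a - 1)
  simp [pol, Fin.prod_univ_two, derivative_mul] at k0 k1
  obtain ⟨u₁, hu₁⟩ : ∃ u : ℂ, u = a - z 0 := ⟨_, rfl⟩
  obtain ⟨u₂, hu₂⟩ : ∃ u : ℂ, u = a - z 1 := ⟨_, rfl⟩
  obtain ⟨v₁, hv₁'⟩ : ∃ v : ℂ, v = a - w₁ := ⟨_, rfl⟩
  obtain ⟨v₂, hv₂'⟩ : ∃ v : ℂ, v = a - w₂ := ⟨_, rfl⟩
  have z1 : z 0 = a - u₁ := by rw [hu₁]; ring
  have z2 : z 1 = a - u₂ := by rw [hu₂]; ring
  have z3 : w₁ = a - v₁ := by rw [hv₁']; ring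
  have z4 : w₂ = a - v₂ := by rw [hv₂']; ring
  rw [← hv₁'] at hv₁ ⊢
  rw [← hv₂'] at hv₂ ⊢
  rw [z1, z2, z3, z4] at k0 k1
  have r2 : u₁ * u₂ = 3 * (v₁ * v₂) := by linear_combination k0
  have r1 : 2 * (u₁ + u₂) = 3 * (v₁ + v₂) := by linear_combination k0 - k1
  have huu : u₁ * u₂ ≠ 0 := by
    rw [r2]; exact mul_ne_zero three_ne_zero (mul_ne_zero hv₁ hv₂)
  have hu10 := left_ne_zero_of_mul huu
  have hu20 := right_ne_zero_of_mul huu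
  have hx₁ := disc (hz 0) (by rw [← hu₁]; exact hu10)
  have hx₂ := disc (hz 1) (by rw [← hu₂]; exact hu20)
  rw [← hu₁] at hx₁
  rw [← hu₂] at hx₂
  refine two_zeros ha0 ha1 hx₁ hx₂ ?_ ?_
  · field_simp
    linear_combination (v₁ + v₂) * r2 - (v₁ * v₂) * r1
  · field_simp
    linear_combination r2

theorem small_three (a : ℝ) (ha0 : 0 ≤ a) (ha1 : a ≤ 1) (z : Fin 3 → ℂ) (hz : ∀ j, ‖z j‖ ≤ 1)
    (h : (a : ℂ) ∉ (derivative (pol (a : ℂ) z)).roots) :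
    (3 : ℝ) ≤ ((derivative (pol (a : ℂ) z)).roots.map
      (fun w : ℂ => (‖w - (a : ℂ)‖ ^ 2)⁻¹)).sum := by
  obtain ⟨w₁, w₂, w₃, hw⟩ := Multiset.card_eq_three.1 (der_card (a : ℂ) z)
  have hv₁ := not_root h (w := w₁) (by rw [hw]; simp)
  have hv₂ := not_root h (w := w₂) (by rw [hw]; simp)
  have hv₃ := not_root h (w := w₃) (by rw [hw]; simp)
  have he := eval_form (a : ℂ) z
  rw [hw] at he ⊢
  simp only [Multiset.insert_eq_cons, Multiset.map_cons, Multiset.map_singleton,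
    Multiset.sum_cons, Multiset.sum_singleton, Multiset.prod_cons, Multiset.prod_singleton,
    inv_norm] at he ⊢
  have k0 := he a
  have k1 := he (a - 1)
  have k2 := he (a + 1)
  simp [pol, Fin.prod_univ_three, derivative_mul] at k0 k1 k2
  obtain ⟨u₁, hu₁⟩ : ∃ u : ℂ, u = a - z 0 := ⟨_, rfl⟩
  obtain ⟨u₂, hu₂⟩ : ∃ u : ℂ, u = a - z 1 := ⟨_, rfl⟩
  obtain ⟨u₃, hu₃⟩ : ∃ u : ℂ, u = a - z 2 := ⟨_, rfl⟩
  obtain ⟨v₁, hv₁'⟩ : ∃ v : ℂ, v = a - w₁ := ⟨_, rfl⟩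
  obtain ⟨v₂, hv₂'⟩ : ∃ v : ℂ, v = a - w₂ := ⟨_, rfl⟩
  obtain ⟨v₃, hv₃'⟩ : ∃ v : ℂ, v = a - w₃ := ⟨_, rfl⟩
  have z1 : z 0 = a - u₁ := by rw [hu₁]; ring
  have z2 : z 1 = a - u₂ := by rw [hu₂]; ring
  have z3 : z 2 = a - u₃ := by rw [hu₃]; ring
  have z4 : w₁ = a - v₁ := by rw [hv₁']; ring
  have z5 : w₂ = a - v₂ := by rw [hv₂']; ring
  have z6 : w₃ = a - v₃ := by rw [hv₃']; ring
  rw [← hv₁'] at hv₁ ⊢
  rw [← hv₂'] at hv₂ ⊢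
  rw [← hv₃'] at hv₃ ⊢
  rw [z1, z2, z3, z4, z5, z6] at k0 k1 k2
  have r3 : u₁ * u₂ * u₃ = 4 * (v₁ * v₂ * v₃) := by linear_combination k0
  have r1 : 3 * (u₁ + u₂ + u₃) = 4 * (v₁ + v₂ + v₃) := by
    linear_combination (1 / 2 : ℂ) * k1 + (1 / 2 : ℂ) * k2 - k0
  have r2 : u₁ * u₂ + u₁ * u₃ + u₂ * u₃ = 2 * (v₁ * v₂ + v₁ * v₃ + v₂ * v₃) := by
    linear_combination (1 / 4 : ℂ) * k2 - (1 / 4 : ℂ) * k1
  have huu : u₁ * u₂ * u₃ ≠ 0 := by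
    rw [r3]; exact mul_ne_zero (by norm_num) (mul_ne_zero (mul_ne_zero hv₁ hv₂) hv₃)
  have hu30 := right_ne_zero_of_mul huu
  have hu20 := right_ne_zero_of_mul (left_ne_zero_of_mul huu)
  have hu10 := left_ne_zero_of_mul (left_ne_zero_of_mul huu)
  have hx₁ := disc (hz 0) (by rw [← hu₁]; exact hu10)
  have hx₂ := disc (hz 1) (by rw [← hu₂]; exact hu20)
  have hx₃ := disc (hz 2) (by rw [← hu₃]; exact hu30)
  rw [← hu₁] at hx₁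
  rw [← hu₂] at hx₂
  rw [← hu₃] at hx₃
  have key := three_zeros (y₁ := v₁⁻¹) (y₂ := v₂⁻¹) (y₃ := v₃⁻¹) ha0 ha1 hx₁ hx₂ hx₃ ?_ ?_ ?_
  · linarith
  · field_simp
    linear_combination (v₁ * v₂ + v₁ * v₃ + v₂ * v₃) * r3 - 2 * (v₁ * v₂ * v₃) * r2
  · field_simp
    linear_combination (v₁ + v₂ + v₃) * r3 - (v₁ * v₂ * v₃) * r1
  · field_simp
    linear_combination r3

end Pool.Agent.U384.CP
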