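import Pool.Agent.U384.CP.Small

/-!
# The sum of the squares of the reciprocals
-/

set_option autoImplicit false

namespace Pool.Agent.U384.CP

open Complex Polynomial

/-- the first and the second derivative of a product -/
theorem log_der (a : ℂ) (M : Multiset ℂ) (h : ∀ w ∈ M, a - w ≠ 0) :
    eval a (M.map (fun w => X - C w)).prod ≠ 0 ∧
    eval a (derivative (M.map (fun w => X - C w)).prod) =
      eval a (M.map (fun w => X - C w)).prod * (M.map (fun w => (a - w)⁻¹)).sum ∧
    eval a (derivative (derivative (M.map (fun w => X - C w)).prod)) =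
      eval a (M.map (fun w => X - C w)).prod *
        ((M.map (fun w => (a - w)⁻¹)).sum ^ 2 - (M.map (fun w => ((a - w)⁻¹) ^ 2)).sum) := by
  induction M using Multiset.induction_on with
  | empty => simp
  | cons w M ih =>
    obtain ⟨h1, h2, h3⟩ := ih fun v hv => h v (Multiset.mem_cons_of_mem hv)
    have hw := h w (Multiset.mem_cons_self w M)
    obtain ⟨Q, hQ⟩ : ∃ Q : ℂ[X], Q = (M.map (fun w => X - C w)).prod := ⟨_, rfl⟩
    obtain ⟨s, hs⟩ : ∃ s : ℂ, s = (M.map (fun w => (a - w)⁻¹)).sum := ⟨_, rfl⟩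
    obtain ⟨t, ht⟩ : ∃ t : ℂ, t = (M.map (fun w => ((a - w)⁻¹) ^ 2)).sum := ⟨_, rfl⟩
    simp only [Multiset.map_cons, Multiset.prod_cons, Multiset.sum_cons]
    rw [← hQ] at h1 h2 h3 ⊢
    rw [← hs] at h2 h3 ⊢
    rw [← ht] at h3 ⊢
    refine ⟨?_, ?_, ?_⟩
    · rw [eval_mul]
      exact mul_ne_zero (by simpa using hw) h1
    · rw [derivative_mul, derivative_sub, derivative_X, derivative_C, sub_zero, one_mul,
        eval_add, eval_mul, eval_mul, h2]
      simp only [eval_sub, eval_X, eval_C]
      field_simp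
    · rw [derivative_mul, derivative_sub, derivative_X, derivative_C, sub_zero, one_mul,
        derivative_add, derivative_mul, derivative_sub, derivative_X, derivative_C, sub_zero,
        one_mul, eval_add, eval_add, eval_mul, eval_mul, h2, h3]
      simp only [eval_sub, eval_X, eval_C]
      field_simp
      ring

theorem sum_sq_form {m : ℕ} (a : ℂ) (z : Fin m → ℂ)
    (h : a ∉ (derivative (pol a z)).roots) :
    (∀ j, a - z j ≠ 0) ∧
    ((derivative (pol a z)).roots.map (fun w => ((a - w)⁻¹) ^ 2)).sum =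
      (∑ j, (a - z j)⁻¹) ^ 2 + 3 * ∑ j, ((a - z j)⁻¹) ^ 2 := by
  obtain ⟨q, hq⟩ : ∃ q : ℂ[X], q = ∏ j, (X - C (z j)) := ⟨_, rfl⟩
  have hP : pol a z = (X - C a) * q := by rw [hq]; rfl
  have hW := log_der a (derivative (pol a z)).roots fun w hw => not_root h hw
  obtain ⟨w1, w2, w3⟩ := hW
  obtain ⟨Q, hQ⟩ : ∃ Q : ℂ[X], Q = ((derivative (pol a z)).roots.map (fun w => X - C w)).prod :=
    ⟨_, rfl⟩
  have hform : derivative (pol a z) = C ((m : ℂ) + 1) * Q := by rw [hQ]; exact der_form a z
  rw [← hQ] at w1 w2 w3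
  have hm : (m : ℂ) + 1 ≠ 0 := by exact_mod_cast Nat.succ_ne_zero m
  -- values of the derivatives of `P` at `a`
  have d1 : eval a (derivative (pol a z)) = eval a q := by
    rw [hP, derivative_mul, derivative_sub, derivative_X, derivative_C, sub_zero, one_mul,
      eval_add, eval_mul]
    simp
  have d2 : eval a (derivative (derivative (pol a z))) = 2 * eval a (derivative q) := by
    rw [hP, derivative_mul, derivative_sub, derivative_X, derivative_C, sub_zero, one_mul,
      derivative_add, derivative_mul, derivative_sub, derivative_X, derivative_C, sub_zero,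
      one_mul, eval_add, eval_add, eval_mul]
    simp
    ring
  have d3 : eval a (derivative (derivative (derivative (pol a z)))) =
      3 * eval a (derivative (derivative q)) := by
    rw [hP, derivative_mul, derivative_sub, derivative_X, derivative_C, sub_zero, one_mul,
      derivative_add, derivative_mul, derivative_sub, derivative_X, derivative_C, sub_zero,
      one_mul, derivative_add, derivative_add, derivative_mul, derivative_sub, derivative_X,
      derivative_C, sub_zero, one_mul, eval_add, eval_add, eval_add, eval_mul]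
    simp
    ring
  have c1 : eval a (derivative (pol a z)) = ((m : ℂ) + 1) * eval a Q := by
    rw [hform, eval_mul, eval_C]
  have c2 : eval a (derivative (derivative (pol a z))) = ((m : ℂ) + 1) * eval a (derivative Q) := by
    rw [hform, derivative_C_mul, eval_mul, eval_C]
  have c3 : eval a (derivative (derivative (derivative (pol a z)))) =
      ((m : ℂ) + 1) * eval a (derivative (derivative Q)) := by
    rw [hform, derivative_C_mul, derivative_C_mul, eval_mul, eval_C]
  have hq0 : eval a q ≠ 0 := by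
    rw [← d1, c1]; exact mul_ne_zero hm w1
  have hz : ∀ j, a - z j ≠ 0 := by
    intro j hj
    apply hq0
    rw [hq, eval_prod]
    exact Finset.prod_eq_zero (Finset.mem_univ j) (by simpa using hj)
  refine ⟨hz, ?_⟩
  have hZ := log_der a ((Finset.univ : Finset (Fin m)).val.map z) (by
    intro w hw
    obtain ⟨j, -, rfl⟩ := Multiset.mem_map.1 hw
    exact hz j)
  simp only [Multiset.map_map, Function.comp_def] at hZ
  obtain ⟨z1, z2, z3⟩ := hZ
  have hq' : (Multiset.map (fun x => X - C (z x)) (Finset.univ : Finset (Fin m)).val).prod = q := by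
    rw [hq]; rfl
  rw [hq'] at z1 z2 z3
  obtain ⟨S, hS⟩ : ∃ S : ℂ, S = ∑ j, (a - z j)⁻¹ := ⟨_, rfl⟩
  obtain ⟨T, hT⟩ : ∃ T : ℂ, T = ∑ j, ((a - z j)⁻¹) ^ 2 := ⟨_, rfl⟩
  have z2' : eval a (derivative q) = eval a q * S := by rw [z2, hS]; rfl
  have z3' : eval a (derivative (derivative q)) = eval a q * (S ^ 2 - T) := by
    rw [z3, hS, hT]; rfl
  rw [← hS, ← hT]
  obtain ⟨s, hs⟩ : ∃ s : ℂ, s = ((derivative (pol a z)).roots.map (fun w => (a - w)⁻¹)).sum :=
    ⟨_, rfl⟩
  obtain ⟨t, ht⟩ : ∃ t : ℂ, t = ((derivative (pol a z)).roots.map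
    (fun w => ((a - w)⁻¹) ^ 2)).sum := ⟨_, rfl⟩
  rw [← hs] at w2 w3
  rw [← ht] at w3 ⊢
  have k1 : eval a q = ((m : ℂ) + 1) * eval a Q := d1.symm.trans c1
  have k2 : 2 * (eval a q * S) = ((m : ℂ) + 1) * (eval a Q * s) := by
    rw [← w2, ← c2, d2, z2']
  have k3 : 3 * (eval a q * (S ^ 2 - T)) = ((m : ℂ) + 1) * (eval a Q * (s ^ 2 - t)) := by
    rw [← w3, ← c3, d3, z3']
  have l1 : s = 2 * S := by
    have : eval a q * (2 * S) = eval a q * s := by
      linear_combination k2 - s * k1
    exact (mul_left_cancel₀ hq0 this).symm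
  have l2 : 3 * (S ^ 2 - T) = s ^ 2 - t := by
    have : eval a q * (3 * (S ^ 2 - T)) = eval a q * (s ^ 2 - t) := by
      linear_combination k3 - (s ^ 2 - t) * k1
    exact mul_left_cancel₀ hq0 this
  rw [l1] at l2
  linear_combination l2

/-- the lower bound for the sum of the squares of the reciprocals of the distances -/
theorem lower {m : ℕ} (a : ℂ) (z : Fin m → ℂ) (h : a ∉ (derivative (pol a z)).roots) :
    ‖(∑ j, (a - z j)⁻¹) ^ 2 + 3 * ∑ j, ((a - z j)⁻¹) ^ 2‖ ≤
      ((derivative (pol a z)).roots.map (fun w : ℂ => (‖w - a‖ ^ 2)⁻¹)).sum := by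
  rw [← (sum_sq_form a z h).2]
  refine (norm_multiset_sum_le _).trans (le_of_eq ?_)
  rw [Multiset.map_map]
  congr 1
  refine Multiset.map_congr rfl (fun w _ => ?_)
  simp only [Function.comp_apply]
  rw [inv_norm, norm_pow]

end Pool.Agent.U384.CP
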